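import Mathlib

set_option autoImplicit false
open Set Filter Topology

namespace Y912.NW

/-- No first crossing of zero. -/
theorem pos_of_no_crossing (q q' : ℝ → ℝ) (hq : ∀ y, 1 ≤ y → HasDerivAt q (q' y) y)
    (h1 : 0 < q 1) (hcr : ∀ z, 1 < z → (∀ y, 1 ≤ y → y < z → 0 < q y) → q z = 0 → 0 < q' z) :
    ∀ y, 1 ≤ y → 0 < q y := by
  intro Y hY
  by_contra hneg
  push Not at hneg
  have hqc : ContinuousOn q (Icc 1 Y) := fun y hy =>
    (hq y hy.1).continuousAt.continuousWithinAt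
  have hZc : IsCompact (Icc (1 : ℝ) Y ∩ q ⁻¹' (Iic 0)) := by
    have : IsClosed (Icc (1 : ℝ) Y ∩ q ⁻¹' (Iic 0)) :=
      hqc.preimage_isClosed_of_isClosed isClosed_Icc isClosed_Iic
    exact isCompact_Icc.of_isClosed_subset this inter_subset_left
  have hZn : (Icc (1 : ℝ) Y ∩ q ⁻¹' (Iic 0)).Nonempty := ⟨Y, ⟨hY, le_rfl⟩, hneg⟩
  obtain ⟨z, hz, hzl⟩ := hZc.exists_isLeast hZn
  have hz1 : 1 ≤ z := hz.1.1
  have hqz : q z ≤ 0 := hz.2
  have hzne : z ≠ 1 := by
    intro h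
    rw [h] at hqz
    exact absurd hqz (not_le.2 h1)
  have hz1' : 1 < z := lt_of_le_of_ne hz1 (Ne.symm hzne)
  have hbefore : ∀ y, 1 ≤ y → y < z → 0 < q y := by
    intro y hy hyz
    by_contra hcon
    push Not at hcon
    have : z ≤ y := hzl ⟨⟨hy, (hyz.trans_le hz.1.2).le⟩, hcon⟩
    linarith
  have hqd : HasDerivAt q (q' z) z := hq z hz1
  have hqz0 : q z = 0 := by
    apply le_antisymm hqz
    have hc : ContinuousWithinAt q (Ico 1 z) z := hqd.continuousAt.continuousWithinAt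
    have hne : (𝓝[Ico 1 z] z).NeBot := by
      rw [← mem_closure_iff_nhdsWithin_neBot, closure_Ico hz1'.ne]
      exact right_mem_Icc.2 hz1'.le
    refine ge_of_tendsto hc ?_
    filter_upwards [self_mem_nhdsWithin] with y hy
    exact (hbefore y hy.1 hy.2).le
  have hpos := hcr z hz1' hbefore hqz0
  have hle : q' z ≤ 0 := by
    have hslope := hqd.hasDerivWithinAt (s := Iio z)
    rw [hasDerivWithinAt_iff_tendsto_slope' (by simp)] at hslope
    refine le_of_tendsto hslope ?_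
    have : ∀ᶠ y in 𝓝[<] z, 1 ≤ y := by
      filter_upwards [Ioo_mem_nhdsLT hz1'] with y hy
      exact hy.1.le
    filter_upwards [this, self_mem_nhdsWithin] with y hy1 hyz
    rw [slope_def_field, hqz0, sub_zero]
    have h1 := hbefore y hy1 hyz
    have hyz' : y - z < 0 := sub_neg.2 hyz
    exact div_nonpos_of_nonneg_of_nonpos h1.le hyz'.le
  linarith

/-- Growth outside the light cone. -/
theorem tail_grow {α : ℝ} {k : ℕ} (f Φ Φ₁ Φ₂ : ℝ → ℝ)
    (hd : ∀ y, 0 < y → HasDerivAt Φ (Φ₁ y) y)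
    (hd1 : ∀ y, 0 < y → HasDerivAt Φ₁ (Φ₂ y) y)
    (hode : ∀ y, 0 < y → (1 - y ^ 2) * Φ₂ y + (((k : ℝ) + 1) / y - 2 * (1 + α) * y) * Φ₁ y
      - α * (1 + α) * Φ y + f (Φ y) = 0)
    (hβ : 0 < Φ 1 * Φ₁ 1)
    (hS : ∀ x, Φ 1 * Φ 1 < Φ 1 * x → 0 < Φ 1 * (f x - α * (1 + α) * x)) :
    ∀ y, 1 ≤ y → 0 < Φ 1 * Φ₁ y := by
  apply pos_of_no_crossing (fun y => Φ 1 * Φ₁ y) (fun y => Φ 1 * Φ₂ y)
    (fun y hy => (hd1 y (lt_of_lt_of_le one_pos hy)).const_mul _) hβ
  intro z hz1' hbefore hqz0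
  have hz0 : 0 < z := lt_trans one_pos hz1'
  have hΦ1z : Φ₁ z = 0 := by
    have h1 : Φ 1 ≠ 0 := by
      intro h; rw [h, zero_mul] at hβ; exact lt_irrefl _ hβ
    exact (mul_eq_zero.1 hqz0).resolve_left h1
  have hstrict : StrictMonoOn (fun y => Φ 1 * Φ y) (Icc 1 z) := by
    apply strictMonoOn_of_deriv_pos (convex_Icc 1 z)
    · intro y hy
      exact ((hd y (lt_of_lt_of_le one_pos hy.1)).continuousAt.continuousWithinAt).const_mul _
    · intro y hy
      rw [interior_Icc] at hy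
      rw [((hd y (lt_trans one_pos hy.1)).const_mul (Φ 1)).deriv]
      exact hbefore y hy.1.le hy.2
  have hgt := hstrict (left_mem_Icc.2 hz1'.le) (right_mem_Icc.2 hz1'.le) hz1'
  have hS' := hS (Φ z) hgt
  have ho := hode z hz0
  rw [hΦ1z, mul_zero, add_zero] at ho
  have e : (z ^ 2 - 1) * (Φ 1 * Φ₂ z) = Φ 1 * (f (Φ z) - α * (1 + α) * Φ z) := by
    have : (z ^ 2 - 1) * Φ₂ z = f (Φ z) - α * (1 + α) * Φ z := by linarith
    rw [← this]; ring
  have hw : 0 < z ^ 2 - 1 := by nlinarith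
  rw [← e] at hS'
  exact (pos_iff_pos_of_mul_pos hS').1 hw

/-- Blow-up outside the light cone, for every power `p > 1`. -/
theorem tail_blowup {α p : ℝ} {k : ℕ} (ha : 0 < α) (hp : 1 < p) (f Φ Φ₁ Φ₂ : ℝ → ℝ)
    (hd : ∀ y, 0 < y → HasDerivAt Φ (Φ₁ y) y)
    (hd1 : ∀ y, 0 < y → HasDerivAt Φ₁ (Φ₂ y) y)
    (hode : ∀ y, 0 < y → (1 - y ^ 2) * Φ₂ y + (((k : ℝ) + 1) / y - 2 * (1 + α) * y) * Φ₁ y
      - α * (1 + α) * Φ y + f (Φ y) = 0)
    (hβ : 0 < Φ 1 * Φ₁ 1)
    (hS : ∃ μ : ℝ, 0 < μ ∧ ∀ x, Φ 1 * Φ 1 ≤ Φ 1 * x →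
      μ * (Φ 1 * x) ^ p ≤ Φ 1 * (f x - α * (1 + α) * x)) : False := by
  obtain ⟨μ, hμ, hS⟩ := hS
  have hΦ1 : Φ 1 ≠ 0 := by
    intro h; rw [h, zero_mul] at hβ; exact lt_irrefl _ hβ
  have hb : 0 < Φ 1 * Φ 1 := mul_self_pos.2 hΦ1
  have hgrow : ∀ y, 1 ≤ y → 0 < Φ 1 * Φ₁ y := by
    apply tail_grow f Φ Φ₁ Φ₂ hd hd1 hode hβ
    intro x hx
    have h1 := hS x hx.le
    have h2 : 0 < Φ 1 * x := lt_trans hb hx
    have : 0 < μ * (Φ 1 * x) ^ p := by positivity
    linarith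
  set V : ℝ → ℝ := fun y => Φ 1 * Φ y with hV
  set V₁ : ℝ → ℝ := fun y => Φ 1 * Φ₁ y with hV1
  set b : ℝ := Φ 1 * Φ 1 with hbdef
  have hVd : ∀ y, 0 < y → HasDerivAt V (V₁ y) y := fun y hy => (hd y hy).const_mul _
  have hVd1 : ∀ y, 0 < y → HasDerivAt V₁ (Φ 1 * Φ₂ y) y := fun y hy => (hd1 y hy).const_mul _
  have hVmono : ∀ y, 1 ≤ y → b ≤ V y := by
    intro y hy
    have hm : MonotoneOn V (Icc 1 y) := by
      apply monotoneOn_of_deriv_nonneg (convex_Icc 1 y)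
      · intro z hz
        exact (hVd z (lt_of_lt_of_le one_pos hz.1)).continuousAt.continuousWithinAt
      · intro z hz
        rw [interior_Icc] at hz
        exact (hVd z (lt_trans one_pos hz.1)).differentiableAt.differentiableWithinAt
      · intro z hz
        rw [interior_Icc] at hz
        rw [(hVd z (lt_trans one_pos hz.1)).deriv]
        exact (hgrow z hz.1.le).le
    exact hm (left_mem_Icc.2 hy) (right_mem_Icc.2 hy) hy
  set η : ℝ := (p - 1) / 2 with hη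
  have hη0 : 0 < η := by rw [hη]; linarith
  have hpη : p = (1 + η) + η := by rw [hη]; ring
  set κ : ℝ := 2 * (1 + α) with hκ
  have hκ0 : 0 < κ := by rw [hκ]; linarith
  -- the small constant
  obtain ⟨ε, hε1, hε2, hε0⟩ : ∃ ε : ℝ, ε * b ^ (1 + η) < V₁ 1 ∧
      κ * ε / b ^ η + (1 + η) * ε ^ 2 < μ ∧ 0 < ε := by
    have h1 : Tendsto (fun ε : ℝ => ε * b ^ (1 + η)) (𝓝[>] 0) (𝓝 0) := by
      have : Continuous (fun ε : ℝ => ε * b ^ (1 + η)) := by fun_prop
      have h2 := (this.tendsto 0).mono_left (nhdsWithin_le_nhds (s := Ioi 0))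
      simpa using h2
    have h2 : Tendsto (fun ε : ℝ => κ * ε / b ^ η + (1 + η) * ε ^ 2) (𝓝[>] 0) (𝓝 0) := by
      have : Continuous (fun ε : ℝ => κ * ε / b ^ η + (1 + η) * ε ^ 2) := by fun_prop
      have h2 := (this.tendsto 0).mono_left (nhdsWithin_le_nhds (s := Ioi 0))
      simpa using h2
    have h3 : 0 < V₁ 1 := hβ
    exact ((h1.eventually (gt_mem_nhds h3)).and ((h2.eventually (gt_mem_nhds hμ)).and
      (self_mem_nhdsWithin (a := (0 : ℝ)) (s := Ioi 0)))).exists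
  set q : ℝ → ℝ := fun y => y * V₁ y - ε * (V y) ^ (1 + η) with hq
  have hVpos : ∀ y, 1 ≤ y → 0 < V y := fun y hy => lt_of_lt_of_le hb (hVmono y hy)
  have hqd : ∀ y, 1 ≤ y → HasDerivAt q
      (V₁ y + y * (Φ 1 * Φ₂ y) - ε * (V₁ y * (1 + η) * (V y) ^ η)) y := by
    intro y hy
    have hy0 : 0 < y := lt_of_lt_of_le one_pos hy
    have e0 := (hVd y hy0).rpow_const (p := 1 + η) (Or.inl (hVpos y hy).ne')
    have e1 := ((hasDerivAt_id y).mul (hVd1 y hy0)).sub (e0.const_mul ε)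
    refine e1.congr_deriv ?_
    rw [show 1 + η - 1 = η by ring]
    simp
  have hq1 : 0 < q 1 := by
    have : V 1 = b := rfl
    simp only [hq]
    rw [this]
    linarith
  have hqpos : ∀ y, 1 ≤ y → 0 < q y := by
    apply pos_of_no_crossing q _ hqd hq1
    intro z hz _ hqz
    have hz0 : 0 < z := lt_trans one_pos hz
    have hw : 0 < z ^ 2 - 1 := by nlinarith
    have hV1z : z * V₁ z = ε * (V z) ^ (1 + η) := by
      simp only [hq] at hqz; linarith
    have hVz : b ≤ V z := hVmono z hz.le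
    have hVz0 : 0 < V z := hVpos z hz.le
    have hVp : (V z) ^ p = (V z) ^ (1 + η) * (V z) ^ η := by
      rw [hpη]
      exact Real.rpow_add hVz0 _ _
    have hg : μ * (V z) ^ p ≤ Φ 1 * (f (Φ z) - α * (1 + α) * Φ z) := hS (Φ z) hVz
    have ho := hode z hz0
    set A : ℝ := (V z) ^ (1 + η) with hA
    set B : ℝ := (V z) ^ η with hB
    have hA0 : 0 < A := Real.rpow_pos_of_pos hVz0 _
    have hB0 : 0 < B := Real.rpow_pos_of_pos hVz0 _
    have hbη : 0 < b ^ η := Real.rpow_pos_of_pos hb _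
    have hBb : b ^ η ≤ B := Real.rpow_le_rpow hb.le hVz hη0.le
    have e1 : (z ^ 2 - 1) * (z * (Φ 1 * Φ₂ z))
        = (k + 1) * V₁ z - κ * z * (z * V₁ z) + z * (Φ 1 * (f (Φ z) - α * (1 + α) * Φ z)) := by
      have : (z ^ 2 - 1) * Φ₂ z = (((k : ℝ) + 1) / z - 2 * (1 + α) * z) * Φ₁ z
        + (f (Φ z) - α * (1 + α) * Φ z) := by linarith
      calc (z ^ 2 - 1) * (z * (Φ 1 * Φ₂ z)) = z * Φ 1 * ((z ^ 2 - 1) * Φ₂ z) := by ring
        _ = _ := by
          rw [this]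
          simp only [hV1, hκ]
          field_simp
    have hprod : 0 < (z ^ 2 - 1) * (V₁ z + z * (Φ 1 * Φ₂ z) - ε * (V₁ z * (1 + η) * B)) := by
      have e2 : (z ^ 2 - 1) * (V₁ z + z * (Φ 1 * Φ₂ z) - ε * (V₁ z * (1 + η) * B))
          = (z ^ 2 - 1) * V₁ z + ((k + 1) * V₁ z - κ * z * (z * V₁ z)
            + z * (Φ 1 * (f (Φ z) - α * (1 + α) * Φ z))) -
              ε * (1 + η) * B * ((z ^ 2 - 1) * V₁ z) := by
        rw [← e1]; ring
      rw [e2, hV1z]
      have hV1pos : 0 < V₁ z := hgrow z hz.le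
      have h1 : 0 ≤ (z ^ 2 - 1) * V₁ z := by positivity
      have h1' : 0 ≤ ((k : ℝ) + 1) * V₁ z := by positivity
      have h2 : (z ^ 2 - 1) * V₁ z ≤ z * (ε * A) := by
        rw [← hV1z]
        nlinarith
      have h3 : ε * (1 + η) * B * ((z ^ 2 - 1) * V₁ z) ≤ ε * (1 + η) * B * (z * (ε * A)) :=
        mul_le_mul_of_nonneg_left h2 (by positivity)
      have h4 : κ * z * (ε * A) ≤ (κ * ε / b ^ η) * (z * (A * B)) := by
        have h5 : 1 ≤ B / b ^ η := by rw [le_div_iff₀ hbη, one_mul]; exact hBb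
        have h6 : 0 ≤ κ * z * (ε * A) := by positivity
        calc κ * z * (ε * A) = κ * z * (ε * A) * 1 := (mul_one _).symm
          _ ≤ κ * z * (ε * A) * (B / b ^ η) := mul_le_mul_of_nonneg_left h5 h6
          _ = _ := by ring
      have h5 : z * (μ * (A * B)) ≤ z * (Φ 1 * (f (Φ z) - α * (1 + α) * Φ z)) := by
        rw [← hVp]
        exact mul_le_mul_of_nonneg_left hg hz0.le
      have h6 : 0 < (μ - (κ * ε / b ^ η + (1 + η) * ε ^ 2)) * (z * (A * B)) := by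
        have : 0 < μ - (κ * ε / b ^ η + (1 + η) * ε ^ 2) := by linarith
        positivity
      have h7 : ε * (1 + η) * B * (z * (ε * A)) = (1 + η) * ε ^ 2 * (z * (A * B)) := by ring
      nlinarith
    exact (pos_iff_pos_of_mul_pos hprod).1 hw
  -- integrate
  set W : ℝ → ℝ := fun y => -((V y) ^ (-η) / η) - ε * Real.log y with hW
  have hWd : ∀ y, 1 ≤ y → HasDerivAt W (V₁ y * (V y) ^ (-η - 1) - ε * y⁻¹) y := by
    intro y hy
    have hy0 : 0 < y := lt_of_lt_of_le one_pos hy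
    have e0 := ((hVd y hy0).rpow_const (p := -η) (Or.inl (hVpos y hy).ne')).div_const η
    have e1 := e0.neg.sub ((Real.hasDerivAt_log hy0.ne').const_mul ε)
    refine e1.congr_deriv ?_
    field_simp
  have hWmono : ∀ y, 1 ≤ y → W 1 ≤ W y := by
    intro y hy
    have hm : MonotoneOn W (Icc 1 y) := by
      apply monotoneOn_of_deriv_nonneg (convex_Icc 1 y)
      · intro z hz
        exact (hWd z hz.1).continuousAt.continuousWithinAt
      · intro z hz
        rw [interior_Icc] at hz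
        exact (hWd z hz.1.le).differentiableAt.differentiableWithinAt
      · intro z hz
        rw [interior_Icc] at hz
        rw [(hWd z hz.1.le).deriv]
        have hz0 : 0 < z := lt_trans one_pos hz.1
        have hVz0 : 0 < V z := hVpos z hz.1.le
        have h1 := hqpos z hz.1.le
        have e1 : (V z) ^ (-η - 1) = ((V z) ^ (1 + η))⁻¹ := by
          rw [← Real.rpow_neg hVz0.le]
          congr 1
          ring
        have hA0 : 0 < (V z) ^ (1 + η) := Real.rpow_pos_of_pos hVz0 _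
        have : V₁ z * (V z) ^ (-η - 1) - ε * z⁻¹ = q z / (z * (V z) ^ (1 + η)) := by
          rw [e1]
          simp only [hq]
          field_simp
        rw [this]
        positivity
    exact hm (left_mem_Icc.2 hy) (right_mem_Icc.2 hy) hy
  have hbη : 0 < b ^ (-η) := Real.rpow_pos_of_pos hb _
  set y₀ : ℝ := Real.exp (b ^ (-η) / (η * ε)) with hy₀
  have hy₀1 : 1 ≤ y₀ := Real.one_le_exp (by positivity)
  have h1 := hWmono y₀ hy₀1
  have h2 : 0 < V y₀ := hVpos y₀ hy₀1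
  have h3 : W 1 = -(b ^ (-η) / η) := by
    simp only [hW]
    rw [Real.log_one, mul_zero, sub_zero]
  have h4 : W y₀ = -((V y₀) ^ (-η) / η) - b ^ (-η) / η := by
    simp only [hW]
    rw [hy₀, Real.log_exp]
    field_simp
  rw [h3, h4] at h1
  have h5 : 0 < (V y₀) ^ (-η) / η := div_pos (Real.rpow_pos_of_pos h2 _) hη0
  linarith

end Y912.NW
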