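import Mathlib

set_option autoImplicit false
open Set Filter Topology

namespace Y912.NW

/-- Local Lipschitz continuity on bounded sets. -/
def LocLip (f : ℝ → ℝ) : Prop :=
  ∀ R : ℝ, ∃ K : ℝ, ∀ x ∈ Icc (-R) R, ∀ y ∈ Icc (-R) R, |f x - f y| ≤ K * |x - y|

theorem lip_bound {f : ℝ → ℝ} (hf : LocLip f) (c β R : ℝ) (hβR : β ∈ Icc (-R) R)
    (hβ : f β = c * β) : ∃ K : ℝ, 0 ≤ K ∧ ∀ x ∈ Icc (-R) R, |f x - c * x| ≤ K * |x - β| := by
  obtain ⟨K, hK⟩ := hf R
  refine ⟨max K 0 + |c|, by positivity, fun x hx => ?_⟩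
  have e : f x - c * x = (f x - f β) - c * (x - β) := by rw [hβ]; ring
  rw [e]
  calc |(f x - f β) - c * (x - β)| ≤ |f x - f β| + |c * (x - β)| := abs_sub _ _
    _ ≤ max K 0 * |x - β| + |c| * |x - β| := by
        rw [abs_mul]
        gcongr
        exact (hK x hx β hβR).trans (mul_le_mul_of_nonneg_right (le_max_left _ _) (abs_nonneg _))
    _ = _ := by ring

/-- Uniqueness for the constant solutions inside the light cone. -/
theorem inner_const {α : ℝ} {k : ℕ} (ha : (k : ℝ) ≤ 2 * α) (f Φ Φ₁ Φ₂ : ℝ → ℝ)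
    (hf : LocLip f)
    (h0 : ContinuousOn Φ (Icc 0 1)) (h1 : ContinuousOn Φ₁ (Icc 0 1))
    (hd : ∀ y ∈ Ioo (0 : ℝ) 1, HasDerivAt Φ (Φ₁ y) y)
    (hd1 : ∀ y ∈ Ioo (0 : ℝ) 1, HasDerivAt Φ₁ (Φ₂ y) y)
    (hode : ∀ y ∈ Ioo (0 : ℝ) 1, (1 - y ^ 2) * Φ₂ y + (((k : ℝ) + 1) / y - 2 * (1 + α) * y) * Φ₁ y
      - α * (1 + α) * Φ y + f (Φ y) = 0)
    (hβ : f (Φ 1) = α * (1 + α) * Φ 1) :
    ∀ y ∈ Ioo (0 : ℝ) 1, Φ y = Φ 1 := by
  intro Y hY
  set β := Φ 1 with hβdef
  have hk0 : (0 : ℝ) ≤ k := Nat.cast_nonneg k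
  have hsub : Icc Y 1 ⊆ Icc (0 : ℝ) 1 := Icc_subset_Icc_left hY.1.le
  obtain ⟨R, hR⟩ := isCompact_Icc.exists_bound_of_continuousOn h0
  have hmemR : ∀ y ∈ Icc (0 : ℝ) 1, Φ y ∈ Icc (-R) R := fun y hy => by
    have := hR y hy
    rw [Real.norm_eq_abs] at this
    exact abs_le.1 this
  obtain ⟨K, hK0, hK⟩ := lip_bound hf (α * (1 + α)) β R (hmemR 1 ⟨zero_le_one, le_rfl⟩) hβ
  set δ : ℝ := 2 * α - k with hδ
  have hδ0 : 0 ≤ δ := by rw [hδ]; linarith
  set κ : ℝ := 1 + 2 * α with hκ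
  have hκ0 : 0 < κ := by rw [hκ]; linarith
  set C₁ : ℝ := κ + (k + 1) / Y with hC₁
  have hC₁0 : 0 ≤ C₁ := by
    have := hY.1
    positivity
  set E : ℝ → ℝ := fun y => (1 - y ^ 2) * (Φ₁ y) ^ 2 / 2 + (Φ y - β) ^ 2 / 2 with hE
  have hEd : ∀ y ∈ Ioo (0 : ℝ) 1, HasDerivAt E
      ((κ * y - (k + 1) / y) * (Φ₁ y) ^ 2
        - Φ₁ y * ((f (Φ y) - α * (1 + α) * Φ y) - (Φ y - β))) y := by
    intro y hy
    have e0 := hd y hy
    have e1 := hd1 y hy
    have e2 : HasDerivAt (fun y : ℝ => 1 - y ^ 2) (-(2 * y)) y := by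
      simpa using ((hasDerivAt_id y).pow 2).const_sub 1
    have e4 := ((e2.mul (e1.pow 2)).div_const 2).add (((e0.sub_const β).pow 2).div_const 2)
    refine e4.congr_deriv ?_
    have hy0 : y ≠ 0 := ne_of_gt hy.1
    have ho := hode y hy
    have : f (Φ y) = -((1 - y ^ 2) * Φ₂ y + (((k : ℝ) + 1) / y - 2 * (1 + α) * y) * Φ₁ y
      - α * (1 + α) * Φ y) := by linarith
    simp only [Pi.pow_apply]
    rw [this, hκ]
    field_simp
    ring
  set A : ℝ → ℝ := fun y => 2 * C₁ * y + (K + 1) * Real.arcsin y with hA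
  have hAd : ∀ y ∈ Ioo (0 : ℝ) 1, HasDerivAt A (2 * C₁ + (K + 1) * (1 / √(1 - y ^ 2))) y := by
    intro y hy
    have e1 := (Real.hasDerivAt_arcsin (x := y) (by linarith [hy.1]) (by linarith [hy.2])).const_mul
      (K + 1)
    have e2 := (hasDerivAt_id y).const_mul (2 * C₁)
    refine (e2.add e1).congr_deriv ?_
    simp
  have hAc : Continuous A := by
    have := Real.continuous_arcsin
    fun_prop
  set H : ℝ → ℝ := fun y => Real.exp (A y) * E y with hH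
  have hHd : ∀ y ∈ Ioo (0 : ℝ) 1, HasDerivAt H
      (Real.exp (A y) * (((κ * y - (k + 1) / y) * (Φ₁ y) ^ 2
        - Φ₁ y * ((f (Φ y) - α * (1 + α) * Φ y) - (Φ y - β)))
          + (2 * C₁ + (K + 1) * (1 / √(1 - y ^ 2))) * E y)) y := by
    intro y hy
    refine ((hAd y hy).exp.mul (hEd y hy)).congr_deriv ?_
    ring
  have hEc : ContinuousOn E (Icc 0 1) := by
    apply ContinuousOn.add
    · exact ((Continuous.continuousOn (by fun_prop)).mul (h1.pow 2)).div_const 2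
    · exact ((h0.sub continuousOn_const).pow 2).div_const 2
  have hHc : ContinuousOn H (Icc Y 1) :=
    ((Real.continuous_exp.comp hAc).continuousOn.mul hEc).mono hsub
  have hmono : MonotoneOn H (Icc Y 1) := by
    apply monotoneOn_of_deriv_nonneg (convex_Icc Y 1) hHc
    · intro y hy
      rw [interior_Icc] at hy
      exact (hHd y ⟨hY.1.trans hy.1, hy.2⟩).differentiableAt.differentiableWithinAt
    · intro y hy
      rw [interior_Icc] at hy
      have hy0 : 0 < y := hY.1.trans hy.1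
      rw [(hHd y ⟨hy0, hy.2⟩).deriv]
      apply mul_nonneg (Real.exp_pos _).le
      have hw : 0 < 1 - y ^ 2 := by nlinarith [hy.2]
      have hw1 : 1 - y ≤ 1 - y ^ 2 := by nlinarith [hy.2]
      have hl := hK (Φ y) (hmemR y ⟨hy0.le, hy.2.le⟩)
      have h2 : δ - C₁ * (1 - y ^ 2) ≤ κ * y - (k + 1) / y := by
        have h3 : κ * y - (k + 1) / y = δ - (1 - y) * (κ + (k + 1) / y) := by
          rw [hκ, hδ]
          field_simp
          ring
        rw [h3]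
        have h4 : κ + ((k : ℝ) + 1) / y ≤ C₁ := by
          rw [hC₁]
          have : ((k : ℝ) + 1) / y ≤ (k + 1) / Y :=
            div_le_div_of_nonneg_left (by positivity) hY.1 hy.1.le
          linarith
        have h5 : (1 - y) * (κ + (k + 1) / y) ≤ (1 - y ^ 2) * C₁ :=
          mul_le_mul hw1 h4 (by positivity) hw.le
        linarith
      have h3 : Φ₁ y * ((f (Φ y) - α * (1 + α) * Φ y) - (Φ y - β))
          ≤ (K + 1) * (|Φ₁ y| * |Φ y - β|) := by
        calc Φ₁ y * ((f (Φ y) - α * (1 + α) * Φ y) - (Φ y - β))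
            ≤ |Φ₁ y * ((f (Φ y) - α * (1 + α) * Φ y) - (Φ y - β))| := le_abs_self _
          _ = |Φ₁ y| * |(f (Φ y) - α * (1 + α) * Φ y) - (Φ y - β)| := abs_mul _ _
          _ ≤ |Φ₁ y| * (|f (Φ y) - α * (1 + α) * Φ y| + |Φ y - β|) := by
              gcongr; exact abs_sub _ _
          _ ≤ |Φ₁ y| * (K * |Φ y - β| + |Φ y - β|) := by gcongr
          _ = (K + 1) * (|Φ₁ y| * |Φ y - β|) := by ring
      have h4 : (δ - C₁ * (1 - y ^ 2)) * (Φ₁ y) ^ 2 ≤ (κ * y - (k + 1) / y) * (Φ₁ y) ^ 2 :=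
        mul_le_mul_of_nonneg_right h2 (sq_nonneg (Φ₁ y))
      set r : ℝ := √(1 - y ^ 2) with hr
      have hr0 : 0 < r := Real.sqrt_pos.2 hw
      have hr2 : r ^ 2 = 1 - y ^ 2 := Real.sq_sqrt hw.le
      have h5 : |Φ₁ y| * |Φ y - β| ≤ 1 / r * E y := by
        have e3 : E y = (r * |Φ₁ y|) ^ 2 / 2 + |Φ y - β| ^ 2 / 2 := by
          simp only [hE]
          rw [mul_pow, sq_abs, sq_abs, hr2]
        rw [e3, one_div, ← div_eq_inv_mul, le_div_iff₀ hr0]
        nlinarith [sq_nonneg (r * |Φ₁ y| - |Φ y - β|)]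
      have h6 := mul_le_mul_of_nonneg_left h5 (by linarith : 0 ≤ K + 1)
      have h7 : C₁ * (1 - y ^ 2) * (Φ₁ y) ^ 2 ≤ 2 * C₁ * E y := by
        simp only [hE]
        have : 0 ≤ C₁ * (Φ y - β) ^ 2 := by positivity
        linarith
      have h8 : 0 ≤ δ * (Φ₁ y) ^ 2 := by positivity
      have h9 : (2 * C₁ + (K + 1) * (1 / r)) * E y = 2 * C₁ * E y + (K + 1) * (1 / r * E y) := by
        ring
      rw [h9]
      linarith
  have hH1 : H 1 = 0 := by
    simp [hH, hE, hβdef]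
  have hHY := hmono (left_mem_Icc.2 hY.2.le) (right_mem_Icc.2 hY.2.le) hY.2.le
  rw [hH1] at hHY
  have hEY : E Y ≤ 0 := by
    by_contra hcon
    push Not at hcon
    have := mul_pos (Real.exp_pos (A Y)) hcon
    exact absurd hHY (not_le.2 this)
  have h8 : 0 ≤ (1 - Y ^ 2) * (Φ₁ Y) ^ 2 / 2 := by
    have : 0 ≤ 1 - Y ^ 2 := by nlinarith [hY.1, hY.2]
    positivity
  have h9 : (Φ Y - β) ^ 2 ≤ 0 := by
    simp only [hE] at hEY
    linarith
  have h10 : Φ Y - β = 0 := by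
    have := le_antisymm h9 (sq_nonneg _)
    exact pow_eq_zero_iff (two_ne_zero) |>.1 this
  linarith

/-- Uniqueness for the constant solutions outside the light cone. -/
theorem tail_const {α : ℝ} {k : ℕ} (ha : (k : ℝ) ≤ 2 * α) (f Φ Φ₁ Φ₂ : ℝ → ℝ)
    (hf : LocLip f)
    (hd : ∀ y, 0 < y → HasDerivAt Φ (Φ₁ y) y)
    (hd1 : ∀ y, 0 < y → HasDerivAt Φ₁ (Φ₂ y) y)
    (hode : ∀ y, 0 < y → (1 - y ^ 2) * Φ₂ y + (((k : ℝ) + 1) / y - 2 * (1 + α) * y) * Φ₁ y
      - α * (1 + α) * Φ y + f (Φ y) = 0)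
    (hβ : f (Φ 1) = α * (1 + α) * Φ 1) :
    ∀ y, 1 ≤ y → Φ y = Φ 1 := by
  intro Y hY
  set β := Φ 1 with hβdef
  have hk0 : (0 : ℝ) ≤ k := Nat.cast_nonneg k
  have hpos : ∀ y ∈ Icc (1 : ℝ) Y, 0 < y := fun y hy => lt_of_lt_of_le one_pos hy.1
  have hΦc : ContinuousOn Φ (Icc 1 Y) := fun y hy => (hd y (hpos y hy)).continuousAt.continuousWithinAt
  obtain ⟨R, hR⟩ := isCompact_Icc.exists_bound_of_continuousOn hΦc
  have hmemR : ∀ y ∈ Icc (1 : ℝ) Y, Φ y ∈ Icc (-R) R := fun y hy => by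
    have := hR y hy
    rw [Real.norm_eq_abs] at this
    exact abs_le.1 this
  have h1mem : (1 : ℝ) ∈ Icc (1 : ℝ) Y := ⟨le_rfl, hY⟩
  obtain ⟨K, hK0, hLip⟩ := lip_bound hf (α * (1 + α)) β R (hmemR 1 h1mem) hβ
  set δ : ℝ := 2 * α - k with hδ
  have hδ0 : 0 ≤ δ := by rw [hδ]; linarith
  set E : ℝ → ℝ := fun y => (y ^ 2 - 1) * (Φ₁ y) ^ 2 / 2 + (Φ y - β) ^ 2 / 2 with hE
  have hEd : ∀ y, 0 < y → HasDerivAt E
      (-((1 + 2 * α) * y - (k + 1) / y) * (Φ₁ y) ^ 2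
        + Φ₁ y * ((f (Φ y) - α * (1 + α) * Φ y) + (Φ y - β))) y := by
    intro y hy
    have e0 := hd y hy
    have e1 := hd1 y hy
    have e2 : HasDerivAt (fun y : ℝ => y ^ 2 - 1) (2 * y) y := by
      simpa using ((hasDerivAt_id y).pow 2).sub_const 1
    have e4 := ((e2.mul (e1.pow 2)).div_const 2).add (((e0.sub_const β).pow 2).div_const 2)
    refine e4.congr_deriv ?_
    have hy0 : y ≠ 0 := ne_of_gt hy
    have ho := hode y hy
    have : f (Φ y) = -((1 - y ^ 2) * Φ₂ y + (((k : ℝ) + 1) / y - 2 * (1 + α) * y) * Φ₁ y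
      - α * (1 + α) * Φ y) := by linarith
    simp only [Pi.pow_apply]
    rw [this]
    field_simp
    ring
  set A : ℝ → ℝ := fun y => -((K + 1) * Real.log (y + √(y ^ 2 - 1))) with hA
  have hAd : ∀ y, 1 < y → HasDerivAt A (-((K + 1) * (1 / √(y ^ 2 - 1)))) y := by
    intro y hy
    have hw : 0 < y ^ 2 - 1 := by nlinarith
    have hr0 : 0 < √(y ^ 2 - 1) := Real.sqrt_pos.2 hw
    have e2 : HasDerivAt (fun y : ℝ => y ^ 2 - 1) (2 * y) y := by
      simpa using ((hasDerivAt_id y).pow 2).sub_const 1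
    have e3 := (hasDerivAt_id y).add (e2.sqrt hw.ne')
    have e4 := ((e3.log (by simp only [Pi.add_apply, id]; positivity)).const_mul (K + 1)).neg
    refine e4.congr_deriv ?_
    simp only [Pi.add_apply, id]
    field_simp
    ring
  have hAc : ContinuousOn A (Icc 1 Y) := by
    apply ContinuousOn.neg
    apply ContinuousOn.mul continuousOn_const
    apply ContinuousOn.log
    · exact Continuous.continuousOn (by fun_prop)
    · intro y hy
      have := hpos y hy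
      positivity
  set H : ℝ → ℝ := fun y => Real.exp (A y) * E y with hH
  have hHd : ∀ y, 1 < y → HasDerivAt H
      (Real.exp (A y) * ((-((1 + 2 * α) * y - (k + 1) / y) * (Φ₁ y) ^ 2
        + Φ₁ y * ((f (Φ y) - α * (1 + α) * Φ y) + (Φ y - β)))
          - (K + 1) * (1 / √(y ^ 2 - 1) * E y))) y := by
    intro y hy
    refine ((hAd y hy).exp.mul (hEd y (lt_trans one_pos hy))).congr_deriv ?_
    ring
  have hHc : ContinuousOn H (Icc 1 Y) :=
    (Real.continuous_exp.comp_continuousOn hAc).mul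
      fun y hy => (hEd y (hpos y hy)).continuousAt.continuousWithinAt
  have hanti : AntitoneOn H (Icc 1 Y) := by
    apply antitoneOn_of_deriv_nonpos (convex_Icc 1 Y) hHc
    · intro y hy
      rw [interior_Icc] at hy
      exact (hHd y hy.1).differentiableAt.differentiableWithinAt
    · intro y hy
      rw [interior_Icc] at hy
      have hy0 : 0 < y := lt_trans one_pos hy.1
      rw [(hHd y hy.1).deriv]
      apply mul_nonpos_of_nonneg_of_nonpos (Real.exp_pos _).le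
      have hyI : y ∈ Icc (1 : ℝ) Y := ⟨hy.1.le, hy.2.le⟩
      have hl := hLip (Φ y) (hmemR y hyI)
      have h2y : ((k : ℝ) + 1) / y ≤ k + 1 := by
        apply div_le_self (by positivity) hy.1.le
      have hk : δ ≤ (1 + 2 * α) * y - (k + 1) / y := by
        have : (1 + 2 * α) * 1 ≤ (1 + 2 * α) * y :=
          mul_le_mul_of_nonneg_left hy.1.le (by linarith)
        rw [hδ]; linarith
      have h3 : Φ₁ y * ((f (Φ y) - α * (1 + α) * Φ y) + (Φ y - β))
          ≤ (K + 1) * (|Φ₁ y| * |Φ y - β|) := by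
        calc Φ₁ y * ((f (Φ y) - α * (1 + α) * Φ y) + (Φ y - β))
            ≤ |Φ₁ y * ((f (Φ y) - α * (1 + α) * Φ y) + (Φ y - β))| := le_abs_self _
          _ = |Φ₁ y| * |(f (Φ y) - α * (1 + α) * Φ y) + (Φ y - β)| := abs_mul _ _
          _ ≤ |Φ₁ y| * (|f (Φ y) - α * (1 + α) * Φ y| + |Φ y - β|) := by
              gcongr; exact abs_add_le _ _
          _ ≤ |Φ₁ y| * (K * |Φ y - β| + |Φ y - β|) := by gcongr
          _ = (K + 1) * (|Φ₁ y| * |Φ y - β|) := by ring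
      have h4 : -((1 + 2 * α) * y - (k + 1) / y) * (Φ₁ y) ^ 2 ≤ 0 := by
        have := mul_le_mul_of_nonneg_right (hδ0.trans hk) (sq_nonneg (Φ₁ y))
        linarith
      have hw : 0 < y ^ 2 - 1 := by nlinarith [hy.1]
      set r : ℝ := √(y ^ 2 - 1) with hr
      have hr0 : 0 < r := Real.sqrt_pos.2 hw
      have hr2 : r ^ 2 = y ^ 2 - 1 := Real.sq_sqrt hw.le
      have h5 : |Φ₁ y| * |Φ y - β| ≤ 1 / r * E y := by
        have e3 : E y = (r * |Φ₁ y|) ^ 2 / 2 + |Φ y - β| ^ 2 / 2 := by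
          simp only [hE]
          rw [mul_pow, sq_abs, sq_abs, hr2]
        rw [e3, one_div, ← div_eq_inv_mul, le_div_iff₀ hr0]
        nlinarith [sq_nonneg (r * |Φ₁ y| - |Φ y - β|)]
      have h6 := mul_le_mul_of_nonneg_left h5 (by linarith : 0 ≤ K + 1)
      linarith
  have hH1 : H 1 = 0 := by
    simp [hH, hE, hβdef]
  have hHY := hanti h1mem (right_mem_Icc.2 hY) hY
  rw [hH1] at hHY
  have hEY : E Y ≤ 0 := by
    by_contra hcon
    push Not at hcon
    have := mul_pos (Real.exp_pos (A Y)) hcon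
    exact absurd hHY (not_le.2 this)
  have h8 : 0 ≤ (Y ^ 2 - 1) * (Φ₁ Y) ^ 2 / 2 := by
    have : 0 ≤ Y ^ 2 - 1 := by nlinarith [hY]
    positivity
  have h9 : (Φ Y - β) ^ 2 ≤ 0 := by
    simp only [hE] at hEY
    linarith
  have h10 : Φ Y - β = 0 := by
    have := le_antisymm h9 (sq_nonneg _)
    exact pow_eq_zero_iff (two_ne_zero) |>.1 this
  linarith

end Y912.NW
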