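import Mathlib
import Pool.Agent.Y912.NW.Const

set_option autoImplicit false
open Set Filter Topology

namespace Y912.NW

/-- `f` is positively homogeneous of degree `p`. -/
def IsHomogeneous (p : ℝ) (f : ℝ → ℝ) : Prop :=
  ∀ t : ℝ, 0 ≤ t → ∀ x : ℝ, f (t * x) = t ^ p * f x

theorem IsHomogeneous.zero {p : ℝ} {f : ℝ → ℝ} (hp : 0 < p) (hf : IsHomogeneous p f) : f 0 = 0 := by
  have := hf 0 le_rfl 0
  rwa [mul_zero, Real.zero_rpow hp.ne', zero_mul] at this

theorem IsHomogeneous.eq {p : ℝ} {f : ℝ → ℝ} (hp : 0 < p) (hf : IsHomogeneous p f) (x : ℝ) :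
    f x = f 1 * (max x 0) ^ p + f (-1) * (max (-x) 0) ^ p := by
  rcases le_total 0 x with h | h
  · have h1 := hf x h 1
    rw [mul_one] at h1
    rw [max_eq_left h, max_eq_right (by linarith), Real.zero_rpow hp.ne', h1]
    ring
  · have h1 := hf (-x) (by linarith) (-1)
    rw [neg_mul_neg, mul_one] at h1
    rw [max_eq_right h, max_eq_left (by linarith), Real.zero_rpow hp.ne', h1]
    ring

theorem loclip_pos {p : ℝ} (hp : 1 ≤ p) : LocLip (fun x => (max x 0) ^ p) := by
  intro R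
  refine ⟨p * |R| ^ (p - 1), fun x hx y hy => ?_⟩
  have hR : 0 ≤ R := by
    have := hx.1.trans hx.2
    linarith
  have hmem : ∀ x ∈ Icc (-R) R, max x 0 ∈ Icc (0 : ℝ) R := fun x hx =>
    ⟨le_max_right _ _, max_le hx.2 hR⟩
  have key := (convex_Icc (0 : ℝ) R).norm_image_sub_le_of_norm_hasDerivWithin_le
    (f := fun x : ℝ => x ^ p) (f' := fun x : ℝ => p * x ^ (p - 1)) (C := p * |R| ^ (p - 1))
    (fun x _ => (Real.hasDerivAt_rpow_const (Or.inr hp)).hasDerivWithinAt)
    (fun x hx => by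
      rw [Real.norm_eq_abs, abs_of_nonneg (mul_nonneg (by linarith) (Real.rpow_nonneg hx.1 _))]
      apply mul_le_mul_of_nonneg_left _ (by linarith)
      exact Real.rpow_le_rpow hx.1 (hx.2.trans (le_abs_self _)) (by linarith))
    (hmem y hy) (hmem x hx)
  simp only [Real.norm_eq_abs] at key
  refine key.trans ?_
  apply mul_le_mul_of_nonneg_left _ (by positivity)
  have := abs_max_sub_max_le_abs x y 0
  exact this

theorem IsHomogeneous.locLip {p : ℝ} {f : ℝ → ℝ} (hp : 1 < p) (hf : IsHomogeneous p f) :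
    LocLip f := by
  intro R
  obtain ⟨K, hK⟩ := loclip_pos hp.le R
  refine ⟨|f 1| * K + |f (-1)| * K, fun x hx y hy => ?_⟩
  have h1 := hK x hx y hy
  have h2 := hK (-x) ⟨by linarith [hx.2], by linarith [hx.1]⟩ (-y)
    ⟨by linarith [hy.2], by linarith [hy.1]⟩
  have e1 : |-x - -y| = |x - y| := by
    rw [← abs_neg]
    congr 1
    ring
  rw [e1] at h2
  simp only at h1 h2
  have e : f x - f y = f 1 * ((max x 0) ^ p - (max y 0) ^ p) +
      f (-1) * ((max (-x) 0) ^ p - (max (-y) 0) ^ p) := by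
    rw [hf.eq (by linarith) x, hf.eq (by linarith) y]
    ring
  rw [e]
  calc |f 1 * ((max x 0) ^ p - (max y 0) ^ p) + f (-1) * ((max (-x) 0) ^ p - (max (-y) 0) ^ p)|
      ≤ |f 1 * ((max x 0) ^ p - (max y 0) ^ p)| +
        |f (-1) * ((max (-x) 0) ^ p - (max (-y) 0) ^ p)| := abs_add_le _ _
    _ = |f 1| * |(max x 0) ^ p - (max y 0) ^ p| +
        |f (-1)| * |(max (-x) 0) ^ p - (max (-y) 0) ^ p| := by rw [abs_mul, abs_mul]
    _ ≤ |f 1| * (K * |x - y|) + |f (-1)| * (K * |x - y|) := by gcongr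
    _ = _ := by ring

theorem IsHomogeneous.continuous {p : ℝ} {f : ℝ → ℝ} (hp : 1 < p) (hf : IsHomogeneous p f) :
    Continuous f := by
  have e : f = fun x => f 1 * (max x 0) ^ p + f (-1) * (max (-x) 0) ^ p :=
    funext fun x => hf.eq (by linarith) x
  rw [e]
  have h1 : Continuous fun x : ℝ => (max x 0) ^ p :=
    (continuous_id.max continuous_const).rpow_const fun _ => Or.inr (by linarith)
  have h2 : Continuous fun x : ℝ => (max (-x) 0) ^ p :=
    (continuous_neg.max continuous_const).rpow_const fun _ => Or.inr (by linarith)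
  exact (continuous_const.mul h1).add (continuous_const.mul h2)

theorem IsHomogeneous.primitive {p : ℝ} {f : ℝ → ℝ} (hp : 1 < p) (hf : IsHomogeneous p f) :
    ∃ F : ℝ → ℝ, (∀ x, HasDerivAt F (f x) x) ∧ ∀ x, x * f x = (p + 1) * F x := by
  have hc := hf.continuous hp
  refine ⟨fun x => ∫ t in (0:ℝ)..x, f t, fun x => ?_, fun x => ?_⟩
  · exact (hc.integral_hasStrictDerivAt 0 x).hasDerivAt
  · have h1 : x * ∫ s in (0:ℝ)..1, f (x * s) = ∫ t in (x * 0)..(x * 1), f t :=
      intervalIntegral.mul_integral_comp_mul_left (f := f) (a := 0) (b := 1) (c := x)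
    rw [mul_zero, mul_one] at h1
    have h2 : ∫ s in (0:ℝ)..1, f (x * s) = ∫ s in (0:ℝ)..1, s ^ p * f x := by
      apply intervalIntegral.integral_congr
      intro s hs
      rw [uIcc_of_le zero_le_one] at hs
      simp only
      rw [mul_comm x s, hf s hs.1 x]
    rw [h2, intervalIntegral.integral_mul_const, integral_rpow (Or.inl (by linarith))] at h1
    have hp1 : p + 1 ≠ 0 := by linarith
    simp only
    rw [← h1, Real.one_rpow, Real.zero_rpow hp1]
    field_simp
    ring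

theorem IsHomogeneous.growth {p : ℝ} {f : ℝ → ℝ} (hp : 1 < p) (hf : IsHomogeneous p f) {c β : ℝ}
    (hc : 0 ≤ c) (hβ : 0 < β * (f β - c * β)) : ∃ μ : ℝ, 0 < μ ∧
      ∀ x, β * β ≤ β * x → μ * (β * x) ^ p ≤ β * (f x - c * x) := by
  have hβ0 : β ≠ 0 := by
    intro h; rw [h, zero_mul] at hβ; exact lt_irrefl _ hβ
  have hβ2 : 0 < β * β := mul_self_pos.2 hβ0
  refine ⟨β * (f β - c * β) / (β * β) ^ p, div_pos hβ (Real.rpow_pos_of_pos hβ2 _), ?_⟩
  intro x hx
  set t : ℝ := (β * x) / (β * β) with ht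
  have ht1 : 1 ≤ t := by rw [ht, le_div_iff₀ hβ2, one_mul]; exact hx
  have hxt : x = t * β := by
    rw [ht]; field_simp
  have ht0 : 0 ≤ t := by linarith
  have hβx : β * x = t * (β * β) := by rw [hxt]; ring
  rw [hβx, Real.mul_rpow ht0 hβ2.le]
  have hbp : 0 < (β * β) ^ p := Real.rpow_pos_of_pos hβ2 _
  have e1 : β * (f β - c * β) / (β * β) ^ p * (t ^ p * (β * β) ^ p) =
      t ^ p * (β * (f β - c * β)) := by
    field_simp
  rw [e1]
  have hfx : f x = t ^ p * f β := by rw [hxt]; exact hf t ht0 β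
  rw [hfx]
  have htp : t ≤ t ^ p := Real.self_le_rpow_of_one_le ht1 hp.le
  have h3 : 0 ≤ c * (β * β) := by positivity
  have h4 := mul_le_mul_of_nonneg_right htp h3
  have e2 : β * (t ^ p * f β - c * x) = t ^ p * (β * f β) - t * (c * (β * β)) := by
    rw [hxt]; ring
  rw [e2]
  linarith

end Y912.NW
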