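import Mathlib

set_option autoImplicit false
open Set Filter Topology

namespace Y912.NW

/-- Sign of `Φ Φ'` at the light cone in dimension `k + 2`, for `k ≤ 2 α` (the energy-subcritical
and energy-critical cases). -/
theorem inner_nonneg {α : ℝ} {k : ℕ} (ha0 : 0 < α) (ha : (k : ℝ) ≤ 2 * α) (F f Φ Φ₁ Φ₂ : ℝ → ℝ)
    (hF : ∀ x, HasDerivAt F (f x) x)
    (hxf : ∀ x, α * (x * f x) = 2 * (1 + α) * F x)
    (h0 : ContinuousOn Φ (Icc 0 1)) (h1 : ContinuousOn Φ₁ (Icc 0 1))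
    (hd : ∀ y ∈ Ioo (0 : ℝ) 1, HasDerivAt Φ (Φ₁ y) y)
    (hd1 : ∀ y ∈ Ioo (0 : ℝ) 1, HasDerivAt Φ₁ (Φ₂ y) y)
    (hode : ∀ y ∈ Ioo (0 : ℝ) 1, (1 - y ^ 2) * Φ₂ y + (((k : ℝ) + 1) / y - 2 * (1 + α) * y) * Φ₁ y
      - α * (1 + α) * Φ y + f (Φ y) = 0)
    (hode1 : (1 + 2 * α - k) * Φ₁ 1 = f (Φ 1) - α * (1 + α) * Φ 1) :
    0 ≤ Φ 1 * Φ₁ 1 := by
  have hk0 : (0 : ℝ) ≤ k := Nat.cast_nonneg k
  have h1a : (1 + α) ≠ 0 := by positivity
  set δ : ℝ := 2 * α - k with hδ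
  have hδ0' : 0 ≤ δ := by rw [hδ]; linarith
  set κ : ℝ := 1 + 2 * α with hκ
  set P : ℝ → ℝ := fun y => (1 - y ^ 2) * (Φ₁ y) ^ 2 / 2 + F (Φ y) - α ^ 2 * (Φ y) ^ 2 / 2 with hP
  set N : ℝ → ℝ := fun y => (1 + κ * y ^ 2) * P y + α * y * (k - κ * y ^ 2) * (Φ y * Φ₁ y) with hN
  set J : ℝ → ℝ := fun y => κ * y * P y + α * ((k + 1) - κ * y ^ 2) * (Φ y * Φ₁ y) with hJ
  set M : ℝ → ℝ := fun y => y ^ (k + 1) * J y with hM
  set S : ℝ → ℝ := fun y => y * N y - ((k + 2) * (1 - y ^ 2) + y ^ 2) * J y / δ with hS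
  set L : ℝ → ℝ := fun y => (1 - y ^ 2) ^ (δ / 2) * (y ^ (k + 1) * S y) with hL
  have hFc : Continuous F := continuous_iff_continuousAt.2 fun x => (hF x).continuousAt
  have hPc : ContinuousOn P (Icc 0 1) := by
    apply ContinuousOn.sub
    · apply ContinuousOn.add
      · exact ((continuousOn_const.sub (continuousOn_id.pow 2)).mul (h1.pow 2)).div_const 2
      · exact hFc.comp_continuousOn h0
    · exact (continuousOn_const.mul (h0.pow 2)).div_const 2
  have hQc : ContinuousOn (fun y => Φ y * Φ₁ y) (Icc 0 1) := h0.mul h1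
  have hNc : ContinuousOn N (Icc 0 1) := by
    apply ContinuousOn.add
    · exact (Continuous.continuousOn (by fun_prop)).mul hPc
    · exact (Continuous.continuousOn (by fun_prop)).mul hQc
  have hJc : ContinuousOn J (Icc 0 1) := by
    apply ContinuousOn.add
    · exact (Continuous.continuousOn (by fun_prop)).mul hPc
    · exact (Continuous.continuousOn (by fun_prop)).mul hQc
  have hMc : ContinuousOn M (Icc 0 1) := (Continuous.continuousOn (by fun_prop)).mul hJc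
  have hSc : ContinuousOn S (Icc 0 1) := by
    apply ContinuousOn.sub
    · exact (Continuous.continuousOn (by fun_prop)).mul hNc
    · exact ((Continuous.continuousOn (by fun_prop)).mul hJc).div_const δ
  -- derivative of `P`
  have hPd : ∀ y ∈ Ioo (0 : ℝ) 1, HasDerivAt P
      (-(((k + 1) - κ * y ^ 2) / y) * (Φ₁ y) ^ 2 + α * (Φ y * Φ₁ y)) y := by
    intro y hy
    have e0 := hd y hy
    have e1 := hd1 y hy
    have e2 : HasDerivAt (fun y : ℝ => 1 - y ^ 2) (-(2 * y)) y := by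
      simpa using ((hasDerivAt_id y).pow 2).const_sub 1
    have e3 : HasDerivAt (fun y => F (Φ y)) (f (Φ y) * Φ₁ y) y := (hF (Φ y)).comp y e0
    have e4 := (((e2.mul (e1.pow 2)).div_const 2).add e3).sub
      (((e0.pow 2).const_mul (α ^ 2)).div_const 2)
    refine e4.congr_deriv ?_
    have hy0 : y ≠ 0 := ne_of_gt hy.1
    have ho := hode y hy
    have : f (Φ y) = -((1 - y ^ 2) * Φ₂ y + (((k : ℝ) + 1) / y - 2 * (1 + α) * y) * Φ₁ y
      - α * (1 + α) * Φ y) := by linarith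
    simp only [Pi.pow_apply]
    rw [this, hκ]
    field_simp
    ring
  have hΦΦ : ∀ y ∈ Ioo (0 : ℝ) 1, HasDerivAt (fun y => Φ y * Φ₁ y)
      (Φ₁ y * Φ₁ y + Φ y * Φ₂ y) y := fun y hy => (hd y hy).mul (hd1 y hy)
  have hid : ∀ y : ℝ, HasDerivAt (fun y : ℝ => y) 1 y := fun y => hasDerivAt_id y
  have hPf : ∀ y, P y = α * (Φ y * f (Φ y)) / (2 * (1 + α)) + (1 - y ^ 2) * (Φ₁ y) ^ 2 / 2
      - α ^ 2 * (Φ y) ^ 2 / 2 := by
    intro y
    rw [hxf]
    simp only [hP]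
    field_simp
    ring
  have hNd : ∀ y ∈ Ioo (0 : ℝ) 1, HasDerivAt N
      (2 * κ * y * P y + (1 + κ * y ^ 2) * (-(((k + 1) - κ * y ^ 2) / y) * (Φ₁ y) ^ 2
        + α * (Φ y * Φ₁ y)) + (α * (k - 3 * κ * y ^ 2) * (Φ y * Φ₁ y)
        + α * y * (k - κ * y ^ 2) * (Φ₁ y * Φ₁ y + Φ y * Φ₂ y))) y := by
    intro y hy
    have a1 : HasDerivAt (fun y : ℝ => 1 + κ * y ^ 2) (2 * κ * y) y := by
      have := (((hid y).pow 2).const_mul κ).const_add 1
      refine this.congr_deriv ?_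
      simp; ring
    have a2 : HasDerivAt (fun y : ℝ => α * y * (k - κ * y ^ 2)) (α * (k - 3 * κ * y ^ 2)) y := by
      have b1 := (hid y).const_mul α
      have b2 := (((hid y).pow 2).const_mul κ).const_sub (k : ℝ)
      refine (b1.mul b2).congr_deriv ?_
      simp; ring
    refine ((a1.mul (hPd y hy)).add (a2.mul (hΦΦ y hy))).congr_deriv ?_
    ring
  have hJd : ∀ y ∈ Ioo (0 : ℝ) 1, HasDerivAt J
      (κ * P y + κ * y * (-(((k + 1) - κ * y ^ 2) / y) * (Φ₁ y) ^ 2 + α * (Φ y * Φ₁ y))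
        + (-(2 * α * κ * y) * (Φ y * Φ₁ y)
        + α * ((k + 1) - κ * y ^ 2) * (Φ₁ y * Φ₁ y + Φ y * Φ₂ y))) y := by
    intro y hy
    have a1 : HasDerivAt (fun y : ℝ => κ * y) κ y := by
      simpa using (hid y).const_mul κ
    have a2 : HasDerivAt (fun y : ℝ => α * ((k + 1) - κ * y ^ 2)) (-(2 * α * κ * y)) y := by
      have b2 := ((((hid y).pow 2).const_mul κ).const_sub ((k : ℝ) + 1)).const_mul α
      refine b2.congr_deriv ?_
      simp; ring
    exact ((a1.mul (hPd y hy)).add (a2.mul (hΦΦ y hy)))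
  have hpowd : ∀ y : ℝ, HasDerivAt (fun y : ℝ => y ^ (k + 1)) ((k + 1) * y ^ k) y := by
    intro y
    simpa using hasDerivAt_pow (k + 1) y
  have hΦ2 : ∀ y ∈ Ioo (0 : ℝ) 1, Φ₂ y = (-(((k : ℝ) + 1) / y - 2 * (1 + α) * y) * Φ₁ y
      + α * (1 + α) * Φ y - f (Φ y)) / (1 - y ^ 2) := by
    intro y hy
    have hw : 0 < 1 - y ^ 2 := by nlinarith [hy.1, hy.2]
    have ho := hode y hy
    rw [eq_div_iff hw.ne']
    linarith
  have hMd : ∀ y ∈ Ioo (0 : ℝ) 1, HasDerivAt M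
      (δ * y ^ (k + 1) * N y / (1 - y ^ 2)) y := by
    intro y hy
    have hy0 : y ≠ 0 := ne_of_gt hy.1
    have hw : 0 < 1 - y ^ 2 := by nlinarith [hy.1, hy.2]
    refine ((hpowd y).mul (hJd y hy)).congr_deriv ?_
    have hNy : N y = (1 + κ * y ^ 2) * P y + α * y * (k - κ * y ^ 2) * (Φ y * Φ₁ y) := rfl
    have hJy : J y = κ * y * P y + α * ((k + 1) - κ * y ^ 2) * (Φ y * Φ₁ y) := rfl
    have key : (k + 1) * J y + y * (κ * P y + κ * y * (-(((k + 1) - κ * y ^ 2) / y) * (Φ₁ y) ^ 2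
        + α * (Φ y * Φ₁ y)) + (-(2 * α * κ * y) * (Φ y * Φ₁ y)
        + α * ((k + 1) - κ * y ^ 2) * (Φ₁ y * Φ₁ y + Φ y * Φ₂ y))) = δ * y * N y / (1 - y ^ 2) := by
      rw [hNy, hJy, hΦ2 y hy, hPf, hκ, hδ]
      field_simp
      ring
    have e1 : δ * y ^ (k + 1) * N y / (1 - y ^ 2) = y ^ k * (δ * y * N y / (1 - y ^ 2)) := by
      rw [pow_succ]; ring
    rw [e1, ← key, pow_succ]
    ring
  -- values at the end points
  have hM0 : M 0 = 0 := by simp [hM]
  have hM1 : M 1 = α * (k + 1) / (2 * (1 + α)) * (Φ 1 * Φ₁ 1) := by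
    have hx := hxf (Φ 1)
    have hf1 : f (Φ 1) = (1 + 2 * α - k) * Φ₁ 1 + α * (1 + α) * Φ 1 := by linarith
    have hF1 : F (Φ 1) = α * (Φ 1 * f (Φ 1)) / (2 * (1 + α)) := by
      rw [hx]
      field_simp
    simp only [hM, hJ, hP]
    rw [hF1, hf1, hκ]
    field_simp
    ring
  by_contra hneg
  push Not at hneg
  have hM1neg : M 1 < 0 := by
    rw [hM1]
    have : 0 < α * ((k : ℝ) + 1) / (2 * (1 + α)) := by positivity
    exact mul_neg_of_pos_of_neg this hneg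
  -- the energy-critical case
  rcases hδ0'.eq_or_lt with hδz | hδ0
  · have hmono : MonotoneOn M (Icc 0 1) := by
      apply monotoneOn_of_deriv_nonneg (convex_Icc 0 1) hMc
      · intro y hy
        rw [interior_Icc] at hy
        exact (hMd y hy).differentiableAt.differentiableWithinAt
      · intro y hy
        rw [interior_Icc] at hy
        rw [(hMd y hy).deriv, ← hδz]
        simp
    have := hmono (left_mem_Icc.2 zero_le_one) (right_mem_Icc.2 zero_le_one) zero_le_one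
    rw [hM0] at this
    linarith
  have hLc : ContinuousOn L (Icc 0 1) := by
    apply ContinuousOn.mul
    · apply ContinuousOn.rpow_const
      · exact Continuous.continuousOn (by fun_prop)
      · intro x _; right; positivity
    · exact (Continuous.continuousOn (by fun_prop)).mul hSc
  have hLd : ∀ y ∈ Ioo (0 : ℝ) 1, HasDerivAt L
      ((1 - y ^ 2) ^ (δ / 2) * y ^ k * ((δ / (1 - y ^ 2) + 2 * δ + 2 * (k + 1)) * y ^ 2 * J y / δ
        - (k + 1) * y * (Φ₁ y) ^ 2)) y := by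
    intro y hy
    have hy0 : y ≠ 0 := ne_of_gt hy.1
    have hw : 0 < 1 - y ^ 2 := by nlinarith [hy.1, hy.2]
    have e2 : HasDerivAt (fun y : ℝ => 1 - y ^ 2) (-(2 * y)) y := by
      simpa using ((hasDerivAt_id y).pow 2).const_sub 1
    have e3 : HasDerivAt (fun y : ℝ => ((k : ℝ) + 2) * (1 - y ^ 2) + y ^ 2)
        (((k : ℝ) + 2) * (-(2 * y)) + 2 * y) y := by
      have := (e2.const_mul ((k : ℝ) + 2)).add ((hid y).pow 2)
      refine this.congr_deriv ?_
      simp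
    have e4 : HasDerivAt S (1 * N y + y * (2 * κ * y * P y + (1 + κ * y ^ 2) *
          (-(((k + 1) - κ * y ^ 2) / y) * (Φ₁ y) ^ 2 + α * (Φ y * Φ₁ y)) +
          (α * (k - 3 * κ * y ^ 2) * (Φ y * Φ₁ y)
          + α * y * (k - κ * y ^ 2) * (Φ₁ y * Φ₁ y + Φ y * Φ₂ y))) -
          ((((k : ℝ) + 2) * (-(2 * y)) + 2 * y) * J y + (((k : ℝ) + 2) * (1 - y ^ 2) + y ^ 2) *
          (κ * P y + κ * y * (-(((k + 1) - κ * y ^ 2) / y) * (Φ₁ y) ^ 2 + α * (Φ y * Φ₁ y))
          + (-(2 * α * κ * y) * (Φ y * Φ₁ y)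
          + α * ((k + 1) - κ * y ^ 2) * (Φ₁ y * Φ₁ y + Φ y * Φ₂ y)))) / δ) y :=
      ((hid y).mul (hNd y hy)).sub ((e3.mul (hJd y hy)).div_const δ)
    have hNy : N y = (1 + κ * y ^ 2) * P y + α * y * (k - κ * y ^ 2) * (Φ y * Φ₁ y) := rfl
    have hJy : J y = κ * y * P y + α * ((k + 1) - κ * y ^ 2) * (Φ y * Φ₁ y) := rfl
    have hδe : δ = 2 * α - k := rfl
    have hδn : 2 * α - (k : ℝ) ≠ 0 := by rw [← hδe]; exact hδ0.ne'
    have key : (k + 1) * S y
        + y * (1 * N y + y * (2 * κ * y * P y + (1 + κ * y ^ 2) *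
          (-(((k + 1) - κ * y ^ 2) / y) * (Φ₁ y) ^ 2 + α * (Φ y * Φ₁ y)) +
          (α * (k - 3 * κ * y ^ 2) * (Φ y * Φ₁ y)
          + α * y * (k - κ * y ^ 2) * (Φ₁ y * Φ₁ y + Φ y * Φ₂ y))) -
          ((((k : ℝ) + 2) * (-(2 * y)) + 2 * y) * J y + (((k : ℝ) + 2) * (1 - y ^ 2) + y ^ 2) *
          (κ * P y + κ * y * (-(((k + 1) - κ * y ^ 2) / y) * (Φ₁ y) ^ 2 + α * (Φ y * Φ₁ y))
          + (-(2 * α * κ * y) * (Φ y * Φ₁ y)
          + α * ((k + 1) - κ * y ^ 2) * (Φ₁ y * Φ₁ y + Φ y * Φ₂ y)))) / δ)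
        - δ * y ^ 2 / (1 - y ^ 2) * S y
        = (δ / (1 - y ^ 2) + 2 * δ + 2 * (k + 1)) * y ^ 2 * J y / δ - (k + 1) * y * (Φ₁ y) ^ 2 := by
      have hSy : S y = y * N y - ((k + 2) * (1 - y ^ 2) + y ^ 2) * J y / δ := rfl
      rw [hSy, hNy, hJy, hΦ2 y hy, hPf, hκ, hδe]
      field_simp
      ring
    generalize hS' : (1 * N y + y * (2 * κ * y * P y + (1 + κ * y ^ 2) *
          (-(((k + 1) - κ * y ^ 2) / y) * (Φ₁ y) ^ 2 + α * (Φ y * Φ₁ y)) +
          (α * (k - 3 * κ * y ^ 2) * (Φ y * Φ₁ y)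
          + α * y * (k - κ * y ^ 2) * (Φ₁ y * Φ₁ y + Φ y * Φ₂ y))) -
          ((((k : ℝ) + 2) * (-(2 * y)) + 2 * y) * J y + (((k : ℝ) + 2) * (1 - y ^ 2) + y ^ 2) *
          (κ * P y + κ * y * (-(((k + 1) - κ * y ^ 2) / y) * (Φ₁ y) ^ 2 + α * (Φ y * Φ₁ y))
          + (-(2 * α * κ * y) * (Φ y * Φ₁ y)
          + α * ((k + 1) - κ * y ^ 2) * (Φ₁ y * Φ₁ y + Φ y * Φ₂ y)))) / δ) = S' at e4 key
    have e5 : HasDerivAt L (-(2 * y) * (δ / 2) * (1 - y ^ 2) ^ (δ / 2 - 1) * (y ^ (k + 1) * S y)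
        + (1 - y ^ 2) ^ (δ / 2) * ((k + 1) * y ^ k * S y + y ^ (k + 1) * S')) y :=
      (e2.rpow_const (p := δ / 2) (Or.inl hw.ne')).mul ((hpowd y).mul e4)
    refine e5.congr_deriv ?_
    have hr : (1 - y ^ 2) ^ (δ / 2 - 1) = (1 - y ^ 2) ^ (δ / 2) / (1 - y ^ 2) := by
      rw [Real.rpow_sub hw, Real.rpow_one]
    rw [← key, hr, pow_succ]
    ring
  have hL0 : L 0 = 0 := by simp [hL]
  have hL1 : L 1 = 0 := by
    simp only [hL]
    rw [one_pow, sub_self, Real.zero_rpow (by positivity), zero_mul]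
  -- minimum of `M`
  obtain ⟨z, hz, hzmin⟩ := isCompact_Icc.exists_isMinOn (nonempty_Icc.2 zero_le_one) hMc
  have hMz : M z < 0 := lt_of_le_of_lt (hzmin (right_mem_Icc.2 zero_le_one)) hM1neg
  have hz0 : 0 < z := by
    rcases hz.1.eq_or_lt with h | h
    · rw [← h, hM0] at hMz
      exact absurd hMz (lt_irrefl _)
    · exact h
  -- last point before `z` where `M` is nonnegative
  have hMcz : ContinuousOn M (Icc 0 z) := hMc.mono (Icc_subset_Icc_right hz.2)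
  have hZc : IsCompact (Icc (0 : ℝ) z ∩ M ⁻¹' (Ici 0)) := by
    have : IsClosed (Icc (0 : ℝ) z ∩ M ⁻¹' (Ici 0)) :=
      hMcz.preimage_isClosed_of_isClosed isClosed_Icc isClosed_Ici
    exact isCompact_Icc.of_isClosed_subset this inter_subset_left
  have hZn : (Icc (0 : ℝ) z ∩ M ⁻¹' (Ici 0)).Nonempty :=
    ⟨0, ⟨le_rfl, hz0.le⟩, by simp [hM0]⟩
  obtain ⟨s, hs, hsl⟩ := hZc.exists_isGreatest hZn
  have hs0 : 0 ≤ s := hs.1.1
  have hMs : 0 ≤ M s := hs.2
  have hsz : s < z := by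
    rcases hs.1.2.eq_or_lt with h | h
    · rw [h] at hMs
      exact absurd hMz (not_lt.2 hMs)
    · exact h
  have hafter : ∀ y, s < y → y ≤ z → M y < 0 := by
    intro y hy hyz
    by_contra hcon
    push Not at hcon
    have : y ≤ s := hsl ⟨⟨hs0.trans hy.le, hyz⟩, hcon⟩
    linarith
  have hMs0 : M s = 0 := by
    apply le_antisymm _ hMs
    have hc : ContinuousWithinAt M (Ioc s z) s :=
      (hMcz s ⟨hs0, hsz.le⟩).mono fun y hy => ⟨hs0.trans hy.1.le, hy.2⟩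
    have hne : (𝓝[Ioc s z] s).NeBot := by
      rw [← mem_closure_iff_nhdsWithin_neBot, closure_Ioc hsz.ne]
      exact left_mem_Icc.2 hsz.le
    refine le_of_tendsto hc ?_
    filter_upwards [self_mem_nhdsWithin] with y hy
    exact (hafter y hy.1 hy.2).le
  have hLs : L s ≤ 0 := by
    rcases hs0.eq_or_lt with h | hspos
    · rw [← h, hL0]
    · have hs1 : s < 1 := lt_of_lt_of_le hsz hz.2
      have hsI : s ∈ Ioo (0 : ℝ) 1 := ⟨hspos, hs1⟩
      have hw : 0 < 1 - s ^ 2 := by nlinarith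
      have hJs : J s = 0 := by
        have hp : 0 < s ^ (k + 1) := pow_pos hspos _
        exact (mul_eq_zero.1 hMs0).resolve_left hp.ne'
      have hder : δ * s ^ (k + 1) * N s / (1 - s ^ 2) ≤ 0 := by
        have hslope := (hMd s hsI).hasDerivWithinAt (s := Ioi s)
        rw [hasDerivWithinAt_iff_tendsto_slope' (by simp)] at hslope
        refine le_of_tendsto hslope ?_
        filter_upwards [Ioo_mem_nhdsGT hsz] with y hy
        rw [slope_def_field, hMs0, sub_zero]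
        exact div_nonpos_of_nonpos_of_nonneg (hafter y hy.1 hy.2.le).le (sub_nonneg.2 hy.1.le)
      have hNs : N s ≤ 0 := by
        by_contra hcon
        push Not at hcon
        have : 0 < δ * s ^ (k + 1) * N s / (1 - s ^ 2) := by positivity
        linarith
      simp only [hL, hS]
      rw [hJs, mul_zero, zero_div, sub_zero]
      have h2 : 0 < (1 - s ^ 2) ^ (δ / 2) := Real.rpow_pos_of_pos hw _
      have h3 : s * N s ≤ 0 := mul_nonpos_of_nonneg_of_nonpos hspos.le hNs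
      have h4 : s ^ (k + 1) * (s * N s) ≤ 0 :=
        mul_nonpos_of_nonneg_of_nonpos (by positivity) h3
      exact mul_nonpos_of_nonneg_of_nonpos h2.le h4
  have hanti : StrictAntiOn L (Icc s z) := by
    apply strictAntiOn_of_deriv_neg (convex_Icc s z)
    · exact hLc.mono fun y hy => ⟨hs0.trans hy.1, hy.2.trans hz.2⟩
    · intro y hy
      rw [interior_Icc] at hy
      have hy0 : 0 < y := lt_of_le_of_lt hs0 hy.1
      have hy1 : y < 1 := lt_of_lt_of_le hy.2 hz.2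
      rw [(hLd y ⟨hy0, hy1⟩).deriv]
      have hw : 0 < 1 - y ^ 2 := by nlinarith
      have h2 : 0 < (1 - y ^ 2) ^ (δ / 2) := Real.rpow_pos_of_pos hw _
      have hMy := hafter y hy.1 hy.2.le
      have hJy : J y < 0 := by
        by_contra hcon
        push Not at hcon
        have : 0 ≤ M y := mul_nonneg (by positivity) hcon
        linarith
      have h3 : 0 < (δ / (1 - y ^ 2) + 2 * δ + 2 * (k + 1)) * y ^ 2 / δ := by positivity
      have h4 := mul_neg_of_pos_of_neg h3 hJy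
      have h5 : (δ / (1 - y ^ 2) + 2 * δ + 2 * (k + 1)) * y ^ 2 * J y / δ
          = (δ / (1 - y ^ 2) + 2 * δ + 2 * (k + 1)) * y ^ 2 / δ * J y := by ring
      have h6 : 0 ≤ ((k : ℝ) + 1) * y * (Φ₁ y) ^ 2 := by positivity
      apply mul_neg_of_pos_of_neg
      · positivity
      · rw [h5]
        linarith
  have hLz := hanti (left_mem_Icc.2 hsz.le) (right_mem_Icc.2 hsz.le) hsz
  rcases hz.2.eq_or_lt with h | hz1
  · rw [h, hL1] at hLz
    linarith
  · have hzI : z ∈ Ioo (0 : ℝ) 1 := ⟨hz0, hz1⟩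
    have hw : 0 < 1 - z ^ 2 := by nlinarith
    have hloc : IsLocalMin M z := hzmin.isLocalMin (Icc_mem_nhds hz0 hz1)
    have hder := hloc.hasDerivAt_eq_zero (hMd z hzI)
    have hNz : N z = 0 := by
      have h2 : 0 < δ * z ^ (k + 1) / (1 - z ^ 2) := by positivity
      have h3 : δ * z ^ (k + 1) / (1 - z ^ 2) * N z = 0 := by
        rw [← hder]; ring
      exact (mul_eq_zero.1 h3).resolve_left h2.ne'
    have hJz : J z < 0 := by
      by_contra hcon
      push Not at hcon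
      have : 0 ≤ M z := mul_nonneg (by positivity) hcon
      linarith
    have hLzpos : 0 ≤ L z := by
      simp only [hL, hS]
      rw [hNz, mul_zero, zero_sub]
      have h2 : 0 < (1 - z ^ 2) ^ (δ / 2) := Real.rpow_pos_of_pos hw _
      have h3 : 0 < ((k + 2) * (1 - z ^ 2) + z ^ 2) / δ := by positivity
      have h4 : -(((k + 2) * (1 - z ^ 2) + z ^ 2) * J z / δ) =
          ((k + 2) * (1 - z ^ 2) + z ^ 2) / δ * (-J z) := by ring
      rw [h4]
      have h5 : 0 ≤ -J z := by linarith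
      positivity
    linarith

end Y912.NW
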