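import Mathlib
import Pool.Agent.Y912.NW.Inner
import Pool.Agent.Y912.NW.Blow
import Pool.Agent.Y912.NW.Homog

set_option autoImplicit false
open Set Filter Topology

namespace Y912.NW

/-- Abstract form: a solution on `[0, ∞)` is constant. -/
theorem constant {α p : ℝ} {k : ℕ} (hp : 1 < p) (hα : α = 2 / (p - 1)) (ha : (k : ℝ) ≤ 2 * α)
    (f Φ Φ₁ Φ₂ : ℝ → ℝ) (hf : IsHomogeneous p f)
    (h0 : ContinuousOn Φ (Icc 0 1)) (h1 : ContinuousOn Φ₁ (Icc 0 1))
    (hd : ∀ y, 0 < y → HasDerivAt Φ (Φ₁ y) y)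
    (hd1 : ∀ y, 0 < y → HasDerivAt Φ₁ (Φ₂ y) y)
    (hode : ∀ y, 0 < y → (1 - y ^ 2) * Φ₂ y + (((k : ℝ) + 1) / y - 2 * (1 + α) * y) * Φ₁ y
      - α * (1 + α) * Φ y + f (Φ y) = 0) :
    ∀ y, 0 ≤ y → Φ y = Φ 1 := by
  have hp1 : 0 < p - 1 := by linarith
  have ha0 : 0 < α := by rw [hα]; positivity
  have hk : (0 : ℝ) < 1 + 2 * α - k := by linarith
  have hode1 : (1 + 2 * α - k) * Φ₁ 1 = f (Φ 1) - α * (1 + α) * Φ 1 := by
    have := hode 1 one_pos
    rw [one_pow, sub_self, zero_mul, div_one] at this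
    linarith
  obtain ⟨F, hF, hxF⟩ := hf.primitive hp
  have hxf : ∀ x, α * (x * f x) = 2 * (1 + α) * F x := by
    intro x
    rw [hxF, hα]
    field_simp
    ring
  have hA := inner_nonneg ha0 ha F f Φ Φ₁ Φ₂ hF hxf h0 h1 (fun y hy => hd y hy.1)
    (fun y hy => hd1 y hy.1) (fun y hy => hode y hy.1) hode1
  rcases eq_or_lt_of_le hA with hz | hpos
  · have hfβ : f (Φ 1) = α * (1 + α) * Φ 1 := by
      rcases mul_eq_zero.1 hz.symm with h | h
      · rw [h, hf.zero (by linarith), mul_zero]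
      · rw [h, mul_zero] at hode1
        linarith
    have hin := inner_const ha f Φ Φ₁ Φ₂ (hf.locLip hp) h0 h1 (fun y hy => hd y hy.1)
      (fun y hy => hd1 y hy.1) (fun y hy => hode y hy.1) hfβ
    have htail := tail_const ha f Φ Φ₁ Φ₂ (hf.locLip hp) hd hd1 hode hfβ
    intro y hy
    rcases le_total 1 y with hy1 | hy1
    · exact htail y hy1
    · rcases hy1.eq_or_lt with h | hlt
      · rw [h]
      rcases hy.eq_or_lt with h | hlt0
      · rw [← h]
        have hc : ContinuousWithinAt Φ (Ioo 0 1) 0 :=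
          (h0 0 ⟨le_rfl, zero_le_one⟩).mono Ioo_subset_Icc_self
        have hne : (𝓝[Ioo (0 : ℝ) 1] 0).NeBot := by
          rw [← mem_closure_iff_nhdsWithin_neBot, closure_Ioo zero_ne_one]
          exact left_mem_Icc.2 zero_le_one
        have h2 : Tendsto Φ (𝓝[Ioo (0 : ℝ) 1] 0) (𝓝 (Φ 1)) := by
          refine tendsto_const_nhds.congr' ?_
          filter_upwards [self_mem_nhdsWithin] with z hz
          exact (hin z hz).symm
        exact tendsto_nhds_unique hc h2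
      · exact hin y ⟨hlt0, hlt⟩
  · exfalso
    apply tail_blowup ha0 hp f Φ Φ₁ Φ₂ hd hd1 hode hpos
    apply hf.growth hp (by positivity)
    rw [← hode1]
    have := mul_pos hk hpos
    linarith

end Y912.NW
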